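import Pool.Agent.Helper53.Comp.GoalsG

/-!
# Packet G4: partial fractions in all variables
-/

namespace Mono.Comp

open Finset Filter Topology

namespace G4

/-- Expansion in all slots. -/
theorem expand (red : Multiset ℝ → (ℝ × ℕ →₀ ℝ)) (P : Multiset ℝ → Prop)
    (hrep : ∀ m, P m → ∀ y ∈ (red m).support, P (Multiset.replicate (y.2 + 1) y.1)) :
    ∀ (k : ℕ) (G : (Fin k → Multiset ℝ) → ℝ),
      (∀ M, (∀ i, P (M i)) → ∀ i, G M = (red (M i)).sum
        (fun x c => c * G (Function.update M i (Multiset.replicate (x.2 + 1) x.1)))) →
      ∀ M, (∀ i, P (M i)) → G M = ∑ x ∈ Fintype.piFinset (fun i => (red (M i)).support),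
        (∏ i, red (M i) (x i)) * G (repl x) := by
  intro k
  induction k with
  | zero =>
    intro G _ M _
    have h1 : Fintype.piFinset (fun i : Fin 0 => (red (M i)).support) = {fun i => i.elim0} := by
      ext x
      simp only [Fintype.mem_piFinset, mem_singleton]
      exact ⟨fun _ => Subsingleton.elim _ _, fun _ i => i.elim0⟩
    rw [h1, sum_singleton]
    simp only [univ_eq_empty, prod_empty, one_mul]
    congr 1
    exact Subsingleton.elim _ _
  | succ k ih =>
    intro G hG M hM
    rw [hG M hM 0, Finsupp.sum]
    have h1 : ∀ y ∈ (red (M 0)).support,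
        G (Function.update M 0 (Multiset.replicate (y.2 + 1) y.1)) =
        ∑ x ∈ Fintype.piFinset (fun i : Fin k => (red (M i.succ)).support),
          (∏ i, red (M i.succ) (x i)) *
            G (Fin.cons (α := fun _ => Multiset ℝ) (Multiset.replicate (y.2 + 1) y.1)
              (repl x)) := by
      intro y hy
      have hPy := hrep _ (hM 0) y hy
      have h2 := ih (fun M' => G (Fin.cons (α := fun _ => Multiset ℝ)
        (Multiset.replicate (y.2 + 1) y.1) M')) (by
          intro M' hM' i
          have hcons : ∀ j : Fin (k + 1), P (Fin.cons (α := fun _ => Multiset ℝ)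
              (Multiset.replicate (y.2 + 1) y.1) M' j) := by
            intro j
            refine Fin.cases ?_ (fun j => ?_) j
            · simpa using hPy
            · simpa using hM' j
          have h3 := hG _ hcons i.succ
          simp only [Fin.cons_succ] at h3
          rw [h3]
          refine Finsupp.sum_congr fun x _ => ?_
          rw [Fin.cons_update]) (fun i => M i.succ) (fun i => hM i.succ)
      have h4 : Function.update M 0 (Multiset.replicate (y.2 + 1) y.1) =
          Fin.cons (α := fun _ => Multiset ℝ) (Multiset.replicate (y.2 + 1) y.1)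
            (fun i => M i.succ) := by
        funext j
        refine Fin.cases ?_ (fun j => ?_) j
        · simp
        · simp
      rw [h4]
      exact h2
    rw [sum_congr rfl fun y hy => by rw [h1 y hy, mul_sum]]
    rw [← sum_product']
    refine sum_nbij' (fun q => Fin.cons (α := fun _ => ℝ × ℕ) q.1 q.2)
      (fun x => (x 0, fun i => x i.succ)) ?_ ?_ ?_ ?_ ?_
    · rintro ⟨y, x⟩ hq
      simp only [mem_product, Fintype.mem_piFinset] at hq ⊢
      intro j
      refine Fin.cases ?_ (fun j => ?_) j
      · simpa using hq.1
      · simpa using hq.2 j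
    · intro x hx
      simp only [mem_product, Fintype.mem_piFinset] at hx ⊢
      exact ⟨hx 0, fun i => hx i.succ⟩
    · rintro ⟨y, x⟩ _
      simp
    · intro x _
      exact Fin.cons_self_tail x
    · rintro ⟨y, x⟩ _
      have h5 : Fin.cons (α := fun _ => Multiset ℝ) (Multiset.replicate (y.2 + 1) y.1)
          (repl x) = repl (Fin.cons (α := fun _ => ℝ × ℕ) y x : Fin (k + 1) → ℝ × ℕ) := by
        funext j
        refine Fin.cases ?_ (fun j => ?_) j
        · simp [repl]
        · simp [repl]
      simp only [h5, Fin.prod_univ_succ, Fin.cons_zero, Fin.cons_succ]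
      ring

end G4

/-- G4. -/
theorem redMulti (h : ExtRec) : RedMulti := by
  intro red hred k Φ hh F hF M hM
  refine G4.expand red (fun m => m ≠ 0 ∧ PosM m) ?_ k F ?_ M hM
  · intro m hm y hy
    have h1 := (hred m hm.1 hm.2).1 y hy
    refine ⟨?_, ?_⟩
    · intro h0
      have := congrArg Multiset.card h0
      simp at this
    · intro x hx
      rw [Multiset.eq_of_mem_replicate hx]
      exact hm.2 _ h1
  · intro M' hM' i
    have h1 := (hred (M' i) (hM' i).1 (hM' i).2).2.2 _ (h k Φ hh F hF M' hM' i)
    simp only [Function.update_eq_self] at h1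
    exact h1

end Mono.Comp
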